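import Pool.Agent.N993.ThreeP
import Pool.Agent.N992.Jac

/-!
Hodge characters of Fermat varieties made of characters of Fermat curves, for the degrees covered by
`Pool.Agent.N993.mainT`.
-/

namespace Pool.Agent.U723.FJ

open Pool.Agent.H916R2 Pool.Agent.N992 Pool.Agent.N993

variable {m : ℕ} [NeZero m]

lemma card_bind3 (L : Multiset (ZMod m × ZMod m × ZMod m)) :
    Multiset.card (L.bind fun x => ({x.1, x.2.1, x.2.2} : Multiset (ZMod m))) =
      3 * Multiset.card L := by
  rw [Multiset.card_bind]
  have : (L.map (Multiset.card ∘ fun x => ({x.1, x.2.1, x.2.2} : Multiset (ZMod m)))) =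
      L.map fun _ => 3 := Multiset.map_congr rfl fun x _ => by simp
  rw [this, Multiset.map_const', Multiset.sum_replicate, smul_eq_mul, mul_comm]

/-- The union of curve lines whose CM types are balanced is a Hodge character. -/
lemma isHodge_bind (L : Multiset (ZMod m × ZMod m × ZMod m)) (hL : ∀ x ∈ L, CurveLine m x)
    (hH : ∀ t : (ZMod m)ˣ,
      2 * Multiset.card (L.filter fun x => InType m x t) = Multiset.card L) :
    IsHodge m (L.bind fun x => {x.1, x.2.1, x.2.2}) := by
  have hcard := card_bind3 L
  refine ⟨?_, ?_, ?_, ?_⟩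
  · rw [Multiset.mem_bind]
    rintro ⟨x, hx, h⟩
    obtain ⟨h1, h2, h3, _⟩ := hL x hx
    simp only [Multiset.insert_eq_cons, Multiset.mem_cons, Multiset.mem_singleton] at h
    rcases h with h | h | h
    · exact h1 h.symm
    · exact h2 h.symm
    · exact h3 h.symm
  · rw [hcard, ← hH 1]
    exact ⟨3 * Multiset.card (L.filter fun x => InType m x 1), by ring⟩
  · rw [Multiset.sum_bind]
    apply Multiset.sum_eq_zero
    intro y hy
    obtain ⟨x, hx, rfl⟩ := Multiset.mem_map.mp hy
    have := (hL x hx).2.2.2
    simp only [Multiset.insert_eq_cons, Multiset.sum_cons, Multiset.sum_singleton]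
    rw [← this]; ring
  · intro t
    rw [hcard, Multiset.map_bind, Multiset.sum_bind]
    have h1 : ∀ M : Multiset (ZMod m × ZMod m × ZMod m), (∀ x ∈ M, CurveLine m x) →
        (M.map fun x => (({x.1, x.2.1, x.2.2} : Multiset (ZMod m)).map
          fun a => ((t : ZMod m) * a).val).sum).sum +
          m * Multiset.card (M.filter fun x => InType m x t) = 2 * m * Multiset.card M := by
      intro M
      induction M using Multiset.induction_on with
      | empty => simp
      | cons x M ih =>
        intro hM
        have h2 := ih fun y hy => hM y (Multiset.mem_cons_of_mem hy)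
        have h3 := (hM x (Multiset.mem_cons_self _ _)).sum_val t
        rw [Multiset.map_cons, Multiset.sum_cons, Multiset.card_cons]
        have h4 : (({x.1, x.2.1, x.2.2} : Multiset (ZMod m)).map
            fun a => ((t : ZMod m) * a).val).sum = ((t : ZMod m) * x.1).val +
              ((t : ZMod m) * x.2.1).val + ((t : ZMod m) * x.2.2).val := by
          simp [Multiset.insert_eq_cons]; ring
        rw [h4]
        by_cases hx : InType m x t
        · rw [Multiset.filter_cons_of_pos (p := fun x => InType m x t) _ hx, Multiset.card_cons]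
          rw [if_pos hx] at h3
          linarith
        · rw [Multiset.filter_cons_of_neg (p := fun x => InType m x t) _ hx]
          rw [if_neg hx] at h3
          linarith
    have h2 := h1 L hL
    have h3 := hH t
    nlinarith

lemma degrees : ∀ m ∈ Finset.range 148, m = 0 ∨ m = 87 ∨ m = 116 ∨ m = 123 ∨
    ((m.primeFactors.erase 2).card + (if 4 ∣ m then 1 else 0) ≤ 3 ∧
      ∀ p ∈ m.primeFactors, p % 4 = 1 → (p = 5 ∨ p = 13 ∨ p = 17) ∨
        ((∀ q ∈ m.primeFactors, q ≠ 2 → q ≠ p → ((List.range p).any fun x => x * x % p == q % p)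
          = true) ∧ (4 ∣ m → p % 8 = 1))) := by
  decide +kernel

lemma threePrimes_147 {m : ℕ} (hm0 : m ≠ 0) (hm : m ≤ 147) (h1 : m ≠ 87) (h2 : m ≠ 116)
    (h3 : m ≠ 123) : ThreePrimes m := by
  rcases degrees m (Finset.mem_range.mpr (by omega)) with h | h | h | h | ⟨hc, hp⟩
  · exact absurd h hm0
  · exact absurd h h1
  · exact absurd h h2
  · exact absurd h h3
  · refine ⟨hc, ?_⟩
    intro p hpp hpm hp4
    rcases hp p (Nat.mem_primeFactors.mpr ⟨hpp, hpm, hm0⟩) hp4 with h | ⟨h4, h5⟩
    · exact Or.inr h
    · left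
      refine ⟨?_, h5⟩
      intro q hq hqm hq2 hqp
      have h6 := h4 q (Nat.mem_primeFactors.mpr ⟨hq, hqm, hm0⟩) hq2 hqp
      rw [List.any_eq_true] at h6
      obtain ⟨x, _, hx⟩ := h6
      rw [beq_iff_eq] at hx
      refine ⟨(x : ZMod p), ?_⟩
      rw [← Nat.cast_mul]
      exact ((ZMod.natCast_eq_natCast_iff' _ _ _).mpr hx).symm

end Pool.Agent.U723.FJ
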